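import Mathlib

set_option autoImplicit false

open Metric Set Filter Topology

namespace Pool.Agent.H764R2.NB

/-- One-variable core: a finite sum of `ε i / (A i - l B i)^(i+1)` with a genuine pole in a disc
cannot agree with a holomorphic function of the disc on a nonempty open subset. -/
lemma no_ext (I : Finset ℕ) (ε A B : ℕ → ℂ) (hε : ∀ i ∈ I, ε i ≠ 0) (hA : ∀ i ∈ I, A i ≠ 0)
    (τ : ℂ) (R : ℝ) (h : ℂ → ℂ) (hh : DifferentiableOn ℂ h (ball τ R))
    (V : Set ℂ) (hV : IsOpen V) (hVn : V.Nonempty) (hVs : V ⊆ ball τ R)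
    (hVA : ∀ l ∈ V, ∀ i ∈ I, A i - l * B i ≠ 0)
    (heq : ∀ l ∈ V, h l = ∑ i ∈ I, ε i * ((A i - l * B i) ^ (i + 1))⁻¹)
    (p : ℂ) (hp : p ∈ ball τ R) (j : ℕ) (hj : j ∈ I) (hpj : A j - p * B j = 0) : False := by
  classical
  -- clear denominators
  set P : ℂ → ℂ := fun l => ∏ i ∈ I, (A i - l * B i) ^ (i + 1) with hP
  set Q : ℂ → ℂ := fun l => ∑ i ∈ I, ε i * ∏ k ∈ I.erase i, (A k - l * B k) ^ (k + 1) with hQ
  have hPd : Differentiable ℂ P := by
    simp only [hP]; fun_prop
  have hQd : Differentiable ℂ Q := by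
    simp only [hQ]; fun_prop
  have key : ∀ l : ℂ, (∀ i ∈ I, A i - l * B i ≠ 0) →
      P l * ∑ i ∈ I, ε i * ((A i - l * B i) ^ (i + 1))⁻¹ = Q l := by
    intro l hl
    simp only [hP, hQ]
    rw [Finset.mul_sum]
    refine Finset.sum_congr rfl fun i hi => ?_
    rw [← Finset.mul_prod_erase I _ hi]
    have := pow_ne_zero (i + 1) (hl i hi)
    field_simp
  have hid : EqOn (fun l => P l * h l) Q (ball τ R) := by
    obtain ⟨v, hv⟩ := hVn
    have h1 : AnalyticOnNhd ℂ (fun l => P l * h l) (ball τ R) :=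
      (hPd.differentiableOn.mul hh).analyticOnNhd isOpen_ball
    have h2 : AnalyticOnNhd ℂ Q (ball τ R) := hQd.differentiableOn.analyticOnNhd isOpen_ball
    refine h1.eqOn_of_preconnected_of_eventuallyEq h2 (convex_ball _ _).isPreconnected (hVs hv) ?_
    filter_upwards [hV.mem_nhds hv] with l hl
    rw [heq l hl]
    exact key l (hVA l hl)
  -- near `p` no factor vanishes
  have hne : ∀ᶠ l in 𝓝[≠] p, ∀ i ∈ I, A i - l * B i ≠ 0 := by
    rw [Filter.eventually_all_finset]
    intro i hi
    by_cases hz : A i - p * B i = 0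
    · have hB : B i ≠ 0 := by
        intro hB
        rw [hB, mul_zero, sub_zero] at hz
        exact hA i hi hz
      filter_upwards [self_mem_nhdsWithin] with l hl h0
      apply hl
      have : (l - p) * B i = 0 := by linear_combination hz - h0
      rcases mul_eq_zero.1 this with h1 | h1
      · exact sub_eq_zero.1 h1
      · exact absurd h1 hB
    · apply Filter.Eventually.filter_mono nhdsWithin_le_nhds
      have hc : ContinuousAt (fun l : ℂ => A i - l * B i) p := by fun_prop
      exact hc.eventually_ne hz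
  have hball : ∀ᶠ l in 𝓝[≠] p, l ∈ ball τ R :=
    Filter.Eventually.filter_mono nhdsWithin_le_nhds (isOpen_ball.mem_nhds hp)
  have hF : ∀ᶠ l in 𝓝[≠] p, h l = ∑ i ∈ I, ε i * ((A i - l * B i) ^ (i + 1))⁻¹ := by
    filter_upwards [hne, hball] with l h1 h2
    have hPl : P l ≠ 0 := by
      simp only [hP]
      exact Finset.prod_ne_zero_iff.2 fun i hi => pow_ne_zero _ (h1 i hi)
    have h3 := hid h2
    simp only at h3
    rw [← key l h1] at h3
    exact mul_left_cancel₀ hPl h3
  -- the maximal index whose factor vanishes at `p`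
  set I0 : Finset ℕ := I.filter fun i => A i - p * B i = 0 with hI0
  have hI0n : I0.Nonempty := ⟨j, by simp [hI0, hj, hpj]⟩
  set m : ℕ := I0.max' hI0n with hm
  have hmI0 : m ∈ I0 := I0.max'_mem hI0n
  have hmI : m ∈ I := (Finset.mem_filter.1 hmI0).1
  have hm0 : A m - p * B m = 0 := (Finset.mem_filter.1 hmI0).2
  have hBm : B m ≠ 0 := by
    intro hB
    rw [hB, mul_zero, sub_zero] at hm0
    exact hA m hmI hm0
  have hlim1 : Tendsto (fun l => (l - p) ^ (m + 1) * h l) (𝓝[≠] p) (𝓝 0) := by
    have h1 : ContinuousAt h p := (hh.differentiableAt (isOpen_ball.mem_nhds hp)).continuousAt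
    have h2 : ContinuousAt (fun l => (l - p) ^ (m + 1) * h l) p := by fun_prop
    have h3 := h2.tendsto
    simp only [sub_self, ne_eq, Nat.add_eq_zero_iff, one_ne_zero, and_false, not_false_eq_true,
      zero_pow, zero_mul] at h3
    exact h3.mono_left nhdsWithin_le_nhds
  have hlim2 : Tendsto (fun l => (l - p) ^ (m + 1) * ∑ i ∈ I, ε i * ((A i - l * B i) ^ (i + 1))⁻¹)
      (𝓝[≠] p) (𝓝 (∑ i ∈ I, if i = m then ε m * ((-B m) ^ (m + 1))⁻¹ else 0)) := by
    simp_rw [Finset.mul_sum]
    refine tendsto_finsetSum _ fun i hi => ?_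
    by_cases hz : A i - p * B i = 0
    · have hiI0 : i ∈ I0 := Finset.mem_filter.2 ⟨hi, hz⟩
      have him : i ≤ m := I0.le_max' i hiI0
      have hBi : B i ≠ 0 := by
        intro hB
        rw [hB, mul_zero, sub_zero] at hz
        exact hA i hi hz
      have hev : (fun l => ε i * ((-B i) ^ (i + 1))⁻¹ * (l - p) ^ (m - i)) =ᶠ[𝓝[≠] p]
          fun l => (l - p) ^ (m + 1) * (ε i * ((A i - l * B i) ^ (i + 1))⁻¹) := by
        filter_upwards [self_mem_nhdsWithin] with l hl
        have hl' : l - p ≠ 0 := sub_ne_zero.2 hl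
        have h1 : A i - l * B i = (-B i) * (l - p) := by linear_combination hz
        have h2 : m + 1 = (m - i) + (i + 1) := by omega
        rw [h1, mul_pow, h2, pow_add (l - p) (m - i) (i + 1)]
        have h3 : (-B i) ^ (i + 1) ≠ 0 := pow_ne_zero _ (neg_ne_zero.2 hBi)
        have h4 : (l - p) ^ (i + 1) ≠ 0 := pow_ne_zero _ hl'
        generalize (-B i) ^ (i + 1) = x at *
        generalize (l - p) ^ (i + 1) = y at *
        field_simp
      refine Tendsto.congr' hev ?_
      by_cases h : i = m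
      · rw [if_pos h, h]
        simp
      · rw [if_neg h]
        have h5 : m - i ≠ 0 := by omega
        have h6 : ContinuousAt (fun l => ε i * ((-B i) ^ (i + 1))⁻¹ * (l - p) ^ (m - i)) p := by
          fun_prop
        have h7 := h6.tendsto
        simp only [sub_self, zero_pow h5, mul_zero] at h7
        exact h7.mono_left nhdsWithin_le_nhds
    · have h : i ≠ m := by
        rintro rfl
        exact hz hm0
      rw [if_neg h]
      have h6 : ContinuousAt (fun l => (l - p) ^ (m + 1) * (ε i * ((A i - l * B i) ^ (i + 1))⁻¹)) p := by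
        have : (A i - p * B i) ^ (i + 1) ≠ 0 := pow_ne_zero _ hz
        have h8 : ContinuousAt (fun l => ((A i - l * B i) ^ (i + 1))⁻¹) p := by
          have h9 : ContinuousAt (fun l => (A i - l * B i) ^ (i + 1)) p := by fun_prop
          exact h9.inv₀ this
        fun_prop
      have h7 := h6.tendsto
      simp only [sub_self, ne_eq, Nat.add_eq_zero_iff, one_ne_zero, and_false, not_false_eq_true,
        zero_pow, zero_mul] at h7
      exact h7.mono_left nhdsWithin_le_nhds
  have hlim3 : Tendsto (fun l => (l - p) ^ (m + 1) * h l) (𝓝[≠] p)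
      (𝓝 (∑ i ∈ I, if i = m then ε m * ((-B m) ^ (m + 1))⁻¹ else 0)) := by
    refine hlim2.congr' ?_
    filter_upwards [hF] with l hl
    rw [hl]
  have huniq := tendsto_nhds_unique hlim1 hlim3
  rw [Finset.sum_ite_eq' I m, if_pos hmI] at huniq
  have : ε m * ((-B m) ^ (m + 1))⁻¹ ≠ 0 :=
    mul_ne_zero (hε m hmI) (inv_ne_zero (pow_ne_zero _ (neg_ne_zero.2 hBm)))
  exact this huniq.symm

end Pool.Agent.H764R2.NB
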