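import Mathlib

set_option autoImplicit false

open Metric Set Filter Topology
open scoped ContDiff

namespace Pool.Agent.H764R2.NB

variable {E : Type*} [NormedAddCommGroup E] [InnerProductSpace ℂ E] [FiniteDimensional ℂ E]

/-- The function `(1 - ⟪w, z⟫)^(-m)` on the closed ball, cut off smoothly outside. -/
lemma exists_cutoff (w : E) (hw : ‖w‖ < 1) (m : ℕ) :
    ∃ U : E → ℂ, ContDiff ℝ ∞ U ∧ HasCompactSupport U ∧
      ∀ z ∈ closedBall (0 : E) 1, U z = ((1 - inner ℂ w z) ^ m)⁻¹ := by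
  have : FiniteDimensional ℝ E := FiniteDimensional.complexToReal E
  have hw0 := norm_nonneg w
  let χ : ContDiffBump (0 : E) := ⟨1, 2 / (1 + ‖w‖), one_pos, by
    rw [lt_div_iff₀ (by linarith)]; linarith⟩
  have hin : ∀ x ∈ closedBall (0 : E) (2 / (1 + ‖w‖)), (1 - inner ℂ w x) ≠ 0 := by
    intro x hx h0
    have h1 : inner ℂ w x = (1 : ℂ) := (sub_eq_zero.1 h0).symm
    have h2 : ‖inner ℂ w x‖ ≤ ‖w‖ * ‖x‖ := norm_inner_le_norm w x
    rw [h1, norm_one] at h2
    have h3 : ‖x‖ ≤ 2 / (1 + ‖w‖) := by simpa using hx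
    have h4 : ‖w‖ * ‖x‖ ≤ ‖w‖ * (2 / (1 + ‖w‖)) := by gcongr
    have h5 : ‖w‖ * (2 / (1 + ‖w‖)) < 1 := by
      rw [← mul_div_assoc, div_lt_one (by linarith)]; linarith
    linarith
  have hinner : ContDiff ℝ ∞ fun z : E => inner ℂ w z :=
    ((innerSL ℂ w).restrictScalars ℝ).contDiff
  refine ⟨fun z => ((χ z : ℝ) : ℂ) * ((1 - inner ℂ w z) ^ m)⁻¹, ?_, ?_, ?_⟩
  · rw [contDiff_iff_contDiffAt]
    intro x
    by_cases hx : x ∈ closedBall (0 : E) (2 / (1 + ‖w‖))
    · have h1 : ContDiffAt ℝ ∞ (fun z : E => ((χ z : ℝ) : ℂ)) x :=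
        (Complex.ofRealCLM.contDiff.comp χ.contDiff).contDiffAt
      have h2 : ContDiffAt ℝ ∞ (fun z : E => (1 - inner ℂ w z) ^ m) x :=
        ((contDiff_const.sub hinner).pow m).contDiffAt
      exact h1.mul (h2.inv (pow_ne_zero _ (hin x hx)))
    · have h1 : (fun z : E => ((χ z : ℝ) : ℂ) * ((1 - inner ℂ w z) ^ m)⁻¹) =ᶠ[𝓝 x] fun _ => 0 := by
        filter_upwards [isClosed_closedBall.isOpen_compl.mem_nhds hx] with y hy
        have : χ y = 0 := by
          apply χ.zero_of_le_dist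
          have h2 : ¬ dist y 0 ≤ 2 / (1 + ‖w‖) := by simpa using hy
          exact (not_le.1 h2).le
        simp [this]
      exact contDiffAt_const.congr_of_eventuallyEq h1
  · have h1 : HasCompactSupport (fun z : E => ((χ z : ℝ) : ℂ)) := by
      have := χ.hasCompactSupport
      exact this.comp_left Complex.ofReal_zero
    exact h1.mul_right
  · intro z hz
    have : χ z = 1 := χ.one_of_mem_closedBall hz
    simp [this]

/-- A choice of small constants making the cut-off functions summable in the smooth topology. -/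
lemma exists_family (w : ℕ → E) (hw : ∀ j, ‖w j‖ < 1) :
    ∃ (ε : ℕ → ℝ) (V : ℕ → E → ℂ), (∀ j, 0 < ε j) ∧ (∀ j, ContDiff ℝ ∞ (V j)) ∧
      (∀ j m, m ≤ j + 1 → ∀ x, ‖iteratedFDeriv ℝ m (V j) x‖ ≤ (1 / 2) ^ j) ∧
      ∀ j, ∀ z ∈ closedBall (0 : E) 1, V j z = ε j * ((1 - inner ℂ (w j) z) ^ (j + 1))⁻¹ := by
  have : FiniteDimensional ℝ E := FiniteDimensional.complexToReal E
  choose U hU1 hU2 hU3 using fun j => exists_cutoff (w j) (hw j) (j + 1)
  have hbd : ∀ j m, ∃ C : ℝ, ∀ x, ‖iteratedFDeriv ℝ m (U j) x‖ ≤ C := by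
    intro j m
    have h1 : Continuous (iteratedFDeriv ℝ m (U j)) :=
      (hU1 j).continuous_iteratedFDeriv (by exact_mod_cast le_top)
    have h2 : HasCompactSupport (iteratedFDeriv ℝ m (U j)) := (hU2 j).iteratedFDeriv m
    exact h1.bounded_above_of_compact_support h2
  choose C hC using hbd
  let D : ℕ → ℝ := fun j => 1 + ∑ m ∈ Finset.range (j + 2), |C j m|
  have hD : ∀ j, 0 < D j := fun j => by
    have : 0 ≤ ∑ m ∈ Finset.range (j + 2), |C j m| := Finset.sum_nonneg fun _ _ => abs_nonneg _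
    simp only [D]; linarith
  refine ⟨fun j => (1 / 2) ^ j / D j, fun j z => (((1 / 2) ^ j / D j : ℝ) : ℂ) * U j z,
    fun j => div_pos (by positivity) (hD j), fun j => contDiff_const.mul (hU1 j), ?_, ?_⟩
  · intro j m hm x
    have h1 : (fun z => (((1 / 2) ^ j / D j : ℝ) : ℂ) * U j z) =
        fun z => ((1 / 2) ^ j / D j : ℝ) • U j z := by
      funext z; rw [Complex.real_smul]
    have h2 : iteratedFDeriv ℝ m (fun z => ((1 / 2) ^ j / D j : ℝ) • U j z) x =
        ((1 / 2) ^ j / D j : ℝ) • iteratedFDeriv ℝ m (U j) x :=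
      iteratedFDeriv_const_smul_apply' (((hU1 j).of_le (by exact_mod_cast le_top)).contDiffAt)
    change ‖iteratedFDeriv ℝ m (fun z => (((1 / 2) ^ j / D j : ℝ) : ℂ) * U j z) x‖ ≤ _
    rw [h1, h2, norm_smul, Real.norm_of_nonneg (div_nonneg (by positivity) (hD j).le)]
    have h3 : ‖iteratedFDeriv ℝ m (U j) x‖ ≤ D j := by
      refine (hC j m x).trans ((le_abs_self _).trans ?_)
      have h4 : |C j m| ≤ ∑ m ∈ Finset.range (j + 2), |C j m| :=
        Finset.single_le_sum (f := fun m => |C j m|) (fun _ _ => abs_nonneg _)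
          (Finset.mem_range.2 (by omega))
      simp only [D]; linarith
    rw [div_mul_eq_mul_div, div_le_iff₀ (hD j)]
    gcongr
  · intro j z hz
    simp only
    rw [hU3 j z hz]

end Pool.Agent.H764R2.NB
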