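import Mathlib

set_option autoImplicit false

open Metric Set Filter Topology
open scoped ContDiff

namespace Pool.Agent.H764R2.NB

variable {E : Type*} [NormedAddCommGroup E] [InnerProductSpace ℂ E] [FiniteDimensional ℂ E]

/-- The sum of the functions selected by `c`. -/
noncomputable def fc (V : ℕ → E → ℂ) (c : ℕ → Bool) (z : E) : ℂ :=
  ∑' j, if c j = true then V j z else 0

lemma term_eq (V : ℕ → E → ℂ) (c : ℕ → Bool) (j : ℕ) :
    (fun z => if c j = true then V j z else 0) = if c j = true then V j else fun _ => 0 := by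
  split_ifs <;> rfl

variable {V : ℕ → E → ℂ} (hV : ∀ j, ContDiff ℝ ∞ (V j))
  (hb : ∀ j m, m ≤ j + 1 → ∀ x, ‖iteratedFDeriv ℝ m (V j) x‖ ≤ (1 / 2) ^ j)

include hV in
lemma term_contDiff (c : ℕ → Bool) (j : ℕ) :
    ContDiff ℝ ∞ (fun z => if c j = true then V j z else 0) := by
  rw [term_eq]
  split_ifs
  · exact hV j
  · exact contDiff_const

include hb in
lemma term_bound (c : ℕ → Bool) (j m : ℕ) (hm : m ≤ j + 1) (x : E) :
    ‖iteratedFDeriv ℝ m (fun z => if c j = true then V j z else 0) x‖ ≤ (1 / 2) ^ j := by
  rw [term_eq]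
  split_ifs
  · exact hb j m hm x
  · have : iteratedFDeriv ℝ m (fun _ : E => (0 : ℂ)) = 0 := iteratedFDeriv_zero_fun
    rw [this]
    simp

include hV hb in
lemma fc_contDiff (c : ℕ → Bool) : ContDiff ℝ ∞ (fc V c) := by
  unfold fc
  refine contDiff_tsum_of_eventually (v := fun _ j => (1 / 2 : ℝ) ^ j)
    (fun j => term_contDiff hV c j) (fun k _ => summable_geometric_two) ?_
  intro k _
  rw [Nat.cofinite_eq_atTop]
  filter_upwards [eventually_ge_atTop k] with j hj x
  exact term_bound hb c j k (by omega) x

include hb in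
lemma term_bound0 (c : ℕ → Bool) (j : ℕ) (x : E) :
    ‖(if c j = true then V j x else 0)‖ ≤ (1 / 2 : ℝ) ^ j := by
  have := term_bound hb c j 0 (by omega) x
  rwa [norm_iteratedFDeriv_zero] at this

include hV hb in
lemma fc_continuous : Continuous fun p : (ℕ → Bool) × E => fc V p.1 p.2 := by
  unfold fc
  refine continuous_tsum (u := fun j => (1 / 2 : ℝ) ^ j) (fun j => ?_) summable_geometric_two
    (fun j p => term_bound0 hb p.1 j p.2)
  have hset : IsClopen {p : (ℕ → Bool) × E | p.1 j = true} := by
    have h1 : Continuous fun p : (ℕ → Bool) × E => p.1 j := (continuous_apply j).comp continuous_fst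
    exact (isClopen_discrete {true}).preimage h1
  refine Continuous.if ?_ ((hV j).continuous.comp continuous_snd) continuous_const
  intro p hp
  rw [hset.frontier_eq] at hp
  exact absurd hp (notMem_empty _)

include hV hb in
lemma fc_differentiableOn (hd : ∀ j, DifferentiableOn ℂ (V j) (ball 0 1)) (c : ℕ → Bool) :
    DifferentiableOn ℂ (fc V c) (ball 0 1) := by
  intro x hx
  refine DifferentiableAt.differentiableWithinAt ?_
  have hd' : ∀ j, ∀ y ∈ ball (0 : E) 1,
      DifferentiableAt ℂ (fun z => if c j = true then V j z else 0) y := by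
    intro j y hy
    rw [term_eq]
    split_ifs
    · exact (hd j).differentiableAt (isOpen_ball.mem_nhds hy)
    · exact differentiableAt_const _
  have := hasFDerivAt_tsum_of_isPreconnected (𝕜 := ℂ) (u := fun j => (1 / 2 : ℝ) ^ j)
    (f := fun j z => if c j = true then V j z else 0)
    (f' := fun j z => fderiv ℂ (fun z => if c j = true then V j z else 0) z)
    (s := ball (0 : E) 1) (x₀ := x) (x := x)
    summable_geometric_two isOpen_ball (convex_ball _ _).isPreconnected
    (fun j y hy => (hd' j y hy).hasFDerivAt) (fun j y hy => ?_) hx ?_ hx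
  · exact this.differentiableAt
  · have h1 := term_bound hb c j 1 (by omega) y
    rw [norm_iteratedFDeriv_one] at h1
    have h2 := (hd' j y hy).fderiv_restrictScalars ℝ
    rw [h2, ContinuousLinearMap.norm_restrictScalars] at h1
    exact h1
  · exact Summable.of_norm_bounded summable_geometric_two fun j => term_bound0 hb c j x

lemma fc_finite (c : ℕ → Bool) (I : Finset ℕ) (hI : ∀ j, c j = true ↔ j ∈ I) (z : E) :
    fc V c z = ∑ j ∈ I, V j z := by
  unfold fc
  rw [tsum_eq_sum (s := I)]
  · refine Finset.sum_congr rfl fun j hj => ?_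
    rw [if_pos ((hI j).2 hj)]
  · intro j hj
    rw [if_neg]
    intro h
    exact hj ((hI j).1 h)

end Pool.Agent.H764R2.NB
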