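import Mathlib
import Pool.Agent.H764R2.NB1
import Pool.Agent.H764R2.NB2
import Pool.Agent.H764R2.NB3

set_option autoImplicit false

open Metric Set Filter Topology
open scoped ContDiff

namespace Pool.Agent.H764R2.NB

variable {E : Type*} [NormedAddCommGroup E] [InnerProductSpace ℂ E]

lemma disc_facts (a b : E) (h : ∀ l : ℂ, ‖l‖ = 1 → ‖a + l • b‖ = 1) :
    inner ℂ a b = (0 : ℂ) ∧ ‖a‖ ^ 2 + ‖b‖ ^ 2 = 1 := by
  have key : ∀ l : ℂ, ‖l‖ = 1 → ‖a‖ ^ 2 + 2 * (l * inner ℂ a b).re + ‖b‖ ^ 2 = 1 := by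
    intro l hl
    have h1 := norm_add_sq (𝕜 := ℂ) a (l • b)
    rw [h l hl, inner_smul_right, norm_smul, hl, one_mul, one_pow] at h1
    exact h1.symm
  have h1 := key 1 (by simp)
  have h2 := key (-1) (by simp)
  have h3 := key Complex.I (by simp)
  simp only [one_mul, neg_mul, Complex.neg_re, Complex.mul_re, Complex.I_re, zero_mul,
    Complex.I_im] at h1 h2 h3
  refine ⟨Complex.ext ?_ ?_, ?_⟩
  · simp only [Complex.zero_re]; linarith
  · simp only [Complex.zero_im]; linarith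
  · linarith

lemma disc_norm (a b : E) (h : ∀ l : ℂ, ‖l‖ = 1 → ‖a + l • b‖ = 1) (l : ℂ) (hl : ‖l‖ ≤ 1) :
    ‖a + l • b‖ ≤ 1 := by
  obtain ⟨h1, h2⟩ := disc_facts a b h
  have h3 := norm_add_sq (𝕜 := ℂ) a (l • b)
  rw [inner_smul_right, h1, mul_zero, norm_smul] at h3
  simp only [map_zero, mul_zero, add_zero] at h3
  have h4 : (‖l‖ * ‖b‖) ^ 2 ≤ ‖b‖ ^ 2 := by
    apply pow_le_pow_left₀ (by positivity)
    calc ‖l‖ * ‖b‖ ≤ 1 * ‖b‖ := by gcongr
      _ = ‖b‖ := one_mul _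
  have h5 : ‖a + l • b‖ ^ 2 ≤ 1 ^ 2 := by rw [h3, one_pow]; linarith
  exact le_of_sq_le_sq h5 (by norm_num) 

/-- A dense-type sequence of points of the open ball. -/
lemma exists_seq [FiniteDimensional ℂ E] : ∃ w : ℕ → E, (∀ j, ‖w j‖ < 1) ∧
    ∀ p : E, ‖p‖ = 1 → ∀ η : ℝ, 0 < η → ∀ J : ℕ, ∃ j, J ≤ j ∧ ‖w j - p‖ < η := by
  have hne : Nonempty (ball (0 : E) 1) := ⟨⟨0, by simp⟩⟩
  have : ProperSpace E := FiniteDimensional.proper ℂ E
  let v : ℕ → ball (0 : E) 1 := TopologicalSpace.denseSeq (ball (0 : E) 1)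
  have hv : DenseRange v := TopologicalSpace.denseRange_denseSeq _
  refine ⟨fun j => (v (Nat.unpair j).1 : E), fun j => mem_ball_zero_iff.1 (v (Nat.unpair j).1).2, ?_⟩
  intro p hp η hη J
  -- a point of the ball near `p`
  set t : ℝ := max 0 (1 - η / 2) with ht
  have ht0 : 0 ≤ t := le_max_left _ _
  have ht1 : t < 1 := max_lt one_pos (by linarith)
  have htη : 1 - η / 2 ≤ t := le_max_right _ _
  have hq : (t : ℝ) • p ∈ ball (0 : E) 1 := by
    rw [mem_ball_zero_iff, norm_smul, hp, mul_one, Real.norm_of_nonneg ht0]; exact ht1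
  obtain ⟨y, hy1⟩ := hv.exists_mem_open (isOpen_ball (x := (⟨(t : ℝ) • p, hq⟩ : ball (0 : E) 1))
    (ε := η / 2)) ⟨⟨(t : ℝ) • p, hq⟩, mem_ball_self (by positivity)⟩
  refine ⟨Nat.pair y J, Nat.right_le_pair _ _, ?_⟩
  simp only [Nat.unpair_pair]
  have h1 : ‖(v y : E) - (t : ℝ) • p‖ < η / 2 := by
    have := hy1
    rw [mem_ball, Subtype.dist_eq, dist_eq_norm] at this
    exact this
  have h2 : ‖(t : ℝ) • p - p‖ ≤ η / 2 := by
    have : (t : ℝ) • p - p = (t - 1) • p := by rw [sub_smul, one_smul]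
    rw [this, norm_smul, hp, mul_one, Real.norm_eq_abs, abs_le]
    constructor <;> linarith
  calc ‖(v y : E) - p‖ = ‖((v y : E) - (t : ℝ) • p) + ((t : ℝ) • p - p)‖ := by congr 1; abel
    _ ≤ _ := norm_add_le _ _
    _ < η := by linarith

lemma exists_net [FiniteDimensional ℂ E] (w : ℕ → E)
    (hw : ∀ p : E, ‖p‖ = 1 → ∀ η : ℝ, 0 < η → ∀ J : ℕ, ∃ j, J ≤ j ∧ ‖w j - p‖ < η)
    (η : ℝ) (hη : 0 < η) (J : ℕ) :
    ∃ N : Finset ℕ, (∀ j ∈ N, J ≤ j) ∧ ∀ p : E, ‖p‖ = 1 → ∃ j ∈ N, ‖w j - p‖ < η := by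
  have : ProperSpace E := FiniteDimensional.proper ℂ E
  obtain ⟨t, ht⟩ := (isCompact_sphere (0 : E) 1).elim_finite_subcover
    (fun j : {j : ℕ // J ≤ j} => ball (w j) η) (fun _ => isOpen_ball) (by
      intro p hp
      have hp' : ‖p‖ = 1 := by simpa using hp
      obtain ⟨j, hj, hjp⟩ := hw p hp' η hη J
      refine mem_iUnion.2 ⟨⟨j, hj⟩, ?_⟩
      rw [mem_ball, dist_comm, dist_eq_norm]
      exact hjp)
  refine ⟨t.map (Function.Embedding.subtype _), ?_, ?_⟩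
  · intro j hj
    obtain ⟨i, _, rfl⟩ := Finset.mem_map.1 hj
    exact i.2
  · intro p hp
    have := ht (mem_sphere_zero_iff_norm.2 hp)
    simp only [mem_iUnion] at this
    obtain ⟨i, hi, hip⟩ := this
    refine ⟨i, Finset.mem_map.2 ⟨i, hi, rfl⟩, ?_⟩
    rw [mem_ball, dist_comm, dist_eq_norm] at hip
    exact hip

end Pool.Agent.H764R2.NB
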