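import Mathlib
import Pool.Agent.H764R2.NB4

set_option autoImplicit false

open Metric Set Filter Topology
open scoped ContDiff

namespace Pool.Agent.H764R2.NB

variable {E : Type*} [NormedAddCommGroup E] [InnerProductSpace ℂ E] [FiniteDimensional ℂ E]

/-- Parameter space: centre, direction, boundary point, Taylor coefficients. -/
abbrev Par (E : Type*) := E × E × ℂ × (ℕ → ℂ)

/-- Closed conditions on the parameters that do not involve the selected function. -/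
def base (E : Type*) [NormedAddCommGroup E] [InnerProductSpace ℂ E] (M : ℝ) :
    Set ((ℕ → Bool) × Par E) :=
  {q | ‖q.2.1‖ ≤ 1 ∧ ‖q.2.2.1‖ ≤ 1 ∧ M⁻¹ ≤ ‖q.2.2.1‖ ∧ ‖q.2.2.2.1‖ = 1 ∧
    (∀ l : ℂ, ‖l‖ = 1 → ‖q.2.1 + l • q.2.2.1‖ = 1) ∧ ∀ n, ‖q.2.2.2.2 n‖ ≤ M * M ^ n}

/-- Pairs of a selection and parameters for which the function extends across a boundary point. -/
def bad (V : ℕ → E → ℂ) (M : ℝ) : Set ((ℕ → Bool) × Par E) :=
  {q | q ∈ base E M ∧ ∀ w : ℂ, ‖w‖ < M⁻¹ → ‖q.2.2.2.1 + w‖ < 1 →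
    ∑' n, q.2.2.2.2 n * w ^ n = fc V q.1 (q.2.1 + (q.2.2.2.1 + w) • q.2.2.1)}

omit [FiniteDimensional ℂ E] in
lemma isClosed_base (M : ℝ) : IsClosed (base E M) := by
  have e : base E M = {q | ‖q.2.1‖ ≤ 1} ∩ {q | ‖q.2.2.1‖ ≤ 1} ∩ {q | M⁻¹ ≤ ‖q.2.2.1‖} ∩
      {q | ‖q.2.2.2.1‖ = 1} ∩ (⋂ (l : ℂ) (_ : ‖l‖ = 1), {q | ‖q.2.1 + l • q.2.2.1‖ = 1}) ∩
      ⋂ n : ℕ, {q | ‖q.2.2.2.2 n‖ ≤ M * M ^ n} := by
    ext q
    simp only [base, mem_ofPred_eq, mem_inter_iff, mem_iInter]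
    tauto
  rw [e]
  refine IsClosed.inter (IsClosed.inter (IsClosed.inter (IsClosed.inter (IsClosed.inter ?_ ?_) ?_)
    ?_) ?_) ?_
  · exact isClosed_le (by fun_prop) (by fun_prop)
  · exact isClosed_le (by fun_prop) (by fun_prop)
  · exact isClosed_le (by fun_prop) (by fun_prop)
  · exact isClosed_eq (by fun_prop) (by fun_prop)
  · exact isClosed_iInter fun l => isClosed_iInter fun _ => isClosed_eq (by fun_prop) (by fun_prop)
  · exact isClosed_iInter fun n => isClosed_le (by fun_prop) (by fun_prop)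

lemma isClosed_bad {V : ℕ → E → ℂ} (hfc : Continuous fun p : (ℕ → Bool) × E => fc V p.1 p.2)
    (M : ℝ) (hM : 1 ≤ M) : IsClosed (bad V M) := by
  have hM0 : 0 < M := by linarith
  have e : bad V M = base E M ∩ ⋂ (w : ℂ) (_ : ‖w‖ < M⁻¹), {q | q ∈ base E M ∧
      (‖q.2.2.2.1 + w‖ < 1 → ∑' n, q.2.2.2.2 n * w ^ n =
        fc V q.1 (q.2.1 + (q.2.2.2.1 + w) • q.2.2.1))} := by
    ext q
    simp only [bad, mem_ofPred_eq, mem_inter_iff, mem_iInter]
    constructor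
    · rintro ⟨h1, h2⟩
      exact ⟨h1, fun w hw => ⟨h1, h2 w hw⟩⟩
    · rintro ⟨h1, h2⟩
      exact ⟨h1, fun w hw => (h2 w hw).2⟩
  rw [e]
  refine (isClosed_base M).inter (isClosed_iInter fun w => isClosed_iInter fun hw => ?_)
  have e2 : {q : (ℕ → Bool) × Par E | q ∈ base E M ∧
      (‖q.2.2.2.1 + w‖ < 1 → ∑' n, q.2.2.2.2 n * w ^ n =
        fc V q.1 (q.2.1 + (q.2.2.2.1 + w) • q.2.2.1))} =
      (base E M ∩ {q | 1 ≤ ‖q.2.2.2.1 + w‖}) ∪
      (base E M ∩ (fun q : (ℕ → Bool) × Par E => (∑' n, q.2.2.2.2 n * w ^ n) -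
        fc V q.1 (q.2.1 + (q.2.2.2.1 + w) • q.2.2.1)) ⁻¹' {0}) := by
    ext q
    simp only [mem_ofPred_eq, mem_union, mem_inter_iff, mem_preimage, mem_singleton_iff,
      sub_eq_zero]
    by_cases h : ‖q.2.2.2.1 + w‖ < 1
    · have h' : ¬ 1 ≤ ‖q.2.2.2.1 + w‖ := not_le.2 h
      tauto
    · have h' : 1 ≤ ‖q.2.2.2.1 + w‖ := not_lt.1 h
      tauto
  rw [e2]
  refine IsClosed.union ((isClosed_base M).inter (isClosed_le (by fun_prop) (by fun_prop))) ?_
  refine ContinuousOn.preimage_isClosed_of_isClosed ?_ (isClosed_base M) isClosed_singleton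
  refine ContinuousOn.sub ?_ ?_
  · refine continuousOn_tsum (u := fun n => M * (M * ‖w‖) ^ n) (fun n => by fun_prop) ?_ ?_
    · refine (summable_geometric_of_lt_one (by positivity) ?_).mul_left M
      calc M * ‖w‖ < M * M⁻¹ := by gcongr
        _ = 1 := mul_inv_cancel₀ hM0.ne'
    · intro n q hq
      rw [norm_mul, norm_pow, mul_pow, ← mul_assoc]
      gcongr
      exact hq.2.2.2.2.2 n
  · refine Continuous.continuousOn ?_
    have h1 : Continuous fun q : (ℕ → Bool) × Par E =>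
        (q.1, q.2.1 + (q.2.2.2.1 + w) • q.2.2.1) := by fun_prop
    exact hfc.comp h1

lemma isCompact_bad {V : ℕ → E → ℂ} (hfc : Continuous fun p : (ℕ → Bool) × E => fc V p.1 p.2)
    (M : ℝ) (hM : 1 ≤ M) : IsCompact (bad V M) := by
  have : ProperSpace E := FiniteDimensional.proper ℂ E
  have h1 : IsCompact ((univ : Set (ℕ → Bool)) ×ˢ ((closedBall (0 : E) 1) ×ˢ
      ((closedBall (0 : E) 1) ×ˢ ((closedBall (0 : ℂ) 1) ×ˢ
        (Set.pi univ fun n : ℕ => closedBall (0 : ℂ) (M * M ^ n)))))) :=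
    isCompact_univ.prod ((isCompact_closedBall _ _).prod ((isCompact_closedBall _ _).prod
      ((isCompact_closedBall _ _).prod (isCompact_univ_pi fun n => isCompact_closedBall _ _))))
  refine h1.of_isClosed_subset (isClosed_bad hfc M hM) ?_
  rintro q ⟨⟨a1, a2, a3, a4, a5, a6⟩, -⟩
  simp only [mem_prod, mem_univ, mem_closedBall, dist_zero_right, Set.mem_pi, true_and]
  exact ⟨a1, a2, a4.le, fun n _ => a6 n⟩

/-- The set of bad selections has empty interior. -/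
lemma interior_empty {V : ℕ → E → ℂ} {w : ℕ → E} (hw1 : ∀ j, ‖w j‖ < 1)
    (hw2 : ∀ p : E, ‖p‖ = 1 → ∀ η : ℝ, 0 < η → ∀ J : ℕ, ∃ j, J ≤ j ∧ ‖w j - p‖ < η)
    {ε : ℕ → ℝ} (hε : ∀ j, 0 < ε j)
    (hVf : ∀ j, ∀ z ∈ closedBall (0 : E) 1, V j z = ε j * ((1 - inner ℂ (w j) z) ^ (j + 1))⁻¹)
    (M : ℝ) (hM : 1 ≤ M) : interior (Prod.fst '' (bad V M)) = ∅ := by
  classical
  by_contra hne
  obtain ⟨c0, hc0⟩ := nonempty_iff_ne_empty.2 hne
  have hM0 : 0 < M := by linarith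
  have hMi : 0 < M⁻¹ := inv_pos.2 hM0
  have hMi1 : M⁻¹ ≤ 1 := inv_le_one_of_one_le₀ hM
  obtain ⟨I0, u, hu1, hu2⟩ := isOpen_pi_iff.1 isOpen_interior c0 hc0
  set J : ℕ := I0.sup id + 1 with hJ
  have hI0 : ∀ i ∈ I0, i < J := by
    intro i hi
    have : id i ≤ I0.sup id := Finset.le_sup hi
    simp only [id] at this
    omega
  obtain ⟨N, hN1, hN2⟩ := exists_net w hw2 (M⁻¹ ^ 3 / 4) (by positivity) J
  set c : ℕ → Bool := fun j => if j < J then c0 j else decide (j ∈ N) with hc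
  have hcU : c ∈ Prod.fst '' (bad V M) := by
    apply interior_subset
    apply hu2
    intro i hi
    have h1 := hu1 i hi
    simp only [hc, if_pos (hI0 i hi)]
    exact h1.2
  obtain ⟨⟨c', a, b, τ, α⟩, ⟨⟨h1, h2, h3, h4, h5, h6⟩, h7⟩, hcc⟩ := hcU
  simp only at hcc h1 h2 h3 h4 h5 h6 h7
  subst hcc
  obtain ⟨hab, hab2⟩ := disc_facts a b h5
  set I : Finset ℕ := ((Finset.range J).filter fun j => c0 j = true) ∪ N with hI
  have hIc : ∀ j, c j = true ↔ j ∈ I := by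
    intro j
    simp only [hc, hI, Finset.mem_union, Finset.mem_filter, Finset.mem_range]
    by_cases hj : j < J
    · have : j ∉ N := fun h => absurd (hN1 j h) (by omega)
      simp [hj, this]
    · simp [hj]
  have hfc : ∀ z ∈ closedBall (0 : E) 1, fc V c z =
      ∑ i ∈ I, (ε i : ℂ) * ((1 - inner ℂ (w i) z) ^ (i + 1))⁻¹ := by
    intro z hz
    rw [fc_finite c I hIc z]
    exact Finset.sum_congr rfl fun i _ => hVf i z hz
  -- the extension
  have hdiff : DifferentiableOn ℂ (fun l => ∑' n, α n * (l - τ) ^ n) (ball τ M⁻¹) := by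
    intro x hx
    obtain ⟨r, hr1, hr2⟩ := exists_between (mem_ball.1 hx)
    have hr0 : 0 ≤ r := dist_nonneg.trans hr1.le
    have h8 : DifferentiableOn ℂ (fun l => ∑' n, α n * (l - τ) ^ n) (ball τ r) := by
      refine Complex.differentiableOn_tsum_of_summable_norm (u := fun n => M * (M * r) ^ n)
        ?_ ?_ isOpen_ball ?_
      · refine (summable_geometric_of_lt_one (by positivity) ?_).mul_left M
        calc M * r < M * M⁻¹ := by gcongr
          _ = 1 := mul_inv_cancel₀ hM0.ne'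
      · intro n; fun_prop
      · intro n y hy
        rw [norm_mul, norm_pow, mul_pow, ← mul_assoc]
        have : ‖y - τ‖ ≤ r := by
          rw [mem_ball, dist_eq_norm] at hy; exact hy.le
        gcongr
        exact h6 n
    exact (h8.differentiableAt (isOpen_ball.mem_nhds hr1)).differentiableWithinAt
  -- the boundary point and the pole
  set p : E := a + τ • b with hp
  have hp1 : ‖p‖ = 1 := h5 τ h4
  obtain ⟨j, hjN, hjp⟩ := hN2 p hp1
  have hjI : j ∈ I := Finset.mem_union_right _ hjN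
  have hpb : inner ℂ p b = (starRingEnd ℂ) τ * (‖b‖ : ℂ) ^ 2 := by
    rw [hp, inner_add_left, hab, zero_add, inner_smul_left, inner_self_eq_norm_sq_to_K]
    rfl
  have hb2 : M⁻¹ ^ 2 ≤ ‖b‖ ^ 2 := by gcongr
  have hpbn : ‖inner ℂ p b‖ = ‖b‖ ^ 2 := by
    rw [hpb, norm_mul, RCLike.norm_conj, h4, one_mul, norm_pow, Complex.norm_real, norm_norm]
  have hdiffb : ‖inner ℂ (w j) b - inner ℂ p b‖ ≤ M⁻¹ ^ 3 / 4 := by
    rw [← inner_sub_left]
    calc ‖inner ℂ (w j - p) b‖ ≤ ‖w j - p‖ * ‖b‖ := norm_inner_le_norm _ _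
      _ ≤ M⁻¹ ^ 3 / 4 * 1 := by gcongr
      _ = _ := mul_one _
  have h34 : M⁻¹ ^ 3 / 4 ≤ M⁻¹ ^ 2 / 4 := by
    have : M⁻¹ ^ 3 ≤ M⁻¹ ^ 2 := pow_le_pow_of_le_one hMi.le hMi1 (by norm_num)
    linarith
  have hwb : M⁻¹ ^ 2 / 2 ≤ ‖inner ℂ (w j) b‖ := by
    have h9 : ‖inner ℂ p b‖ ≤ ‖inner ℂ (w j) b‖ + ‖inner ℂ (w j) b - inner ℂ p b‖ := by
      calc ‖inner ℂ p b‖ = ‖inner ℂ (w j) b - (inner ℂ (w j) b - inner ℂ p b)‖ := by
            congr 1; ring
        _ ≤ _ := norm_sub_le _ _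
    have h10 : 0 < M⁻¹ ^ 2 := by positivity
    rw [hpbn] at h9
    linarith
  have hwb0 : inner ℂ (w j) b ≠ (0 : ℂ) := by
    intro h
    rw [h, norm_zero] at hwb
    have : 0 < M⁻¹ ^ 2 := by positivity
    linarith
  set lp : ℂ := (1 - inner ℂ (w j) a) / inner ℂ (w j) b with hlp
  have hlpτ : lp - τ = (1 - inner ℂ (w j) p) / inner ℂ (w j) b := by
    rw [hlp, hp, inner_add_right, inner_smul_right]
    field_simp
    ring
  have hwp : ‖(1 : ℂ) - inner ℂ (w j) p‖ < M⁻¹ ^ 3 / 4 := by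
    have h11 : inner ℂ p p = (1 : ℂ) := by
      rw [inner_self_eq_norm_sq_to_K, hp1]; simp
    rw [← h11, ← inner_sub_left]
    calc ‖inner ℂ (p - w j) p‖ ≤ ‖p - w j‖ * ‖p‖ := norm_inner_le_norm _ _
      _ = ‖w j - p‖ := by rw [hp1, mul_one, norm_sub_rev]
      _ < _ := hjp
  have hlpball : lp ∈ ball τ M⁻¹ := by
    rw [mem_ball, dist_eq_norm, hlpτ, norm_div, div_lt_iff₀ (by positivity)]
    calc ‖(1 : ℂ) - inner ℂ (w j) p‖ < M⁻¹ ^ 3 / 4 := hwp
      _ ≤ M⁻¹ * (M⁻¹ ^ 2 / 2) := by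
          have : 0 < M⁻¹ ^ 3 := by positivity
          nlinarith
      _ ≤ M⁻¹ * ‖inner ℂ (w j) b‖ := by gcongr
  have hin1 : ∀ (i : ℕ) (z : E), ‖z‖ ≤ 1 → (1 : ℂ) - inner ℂ (w i) z ≠ 0 := by
    intro i z hz h0
    have h12 : inner ℂ (w i) z = (1 : ℂ) := (sub_eq_zero.1 h0).symm
    have h13 : ‖inner ℂ (w i) z‖ ≤ ‖w i‖ * ‖z‖ := norm_inner_le_norm _ _
    rw [h12, norm_one] at h13
    have h14 : ‖w i‖ * ‖z‖ ≤ ‖w i‖ * 1 := by gcongr
    linarith [hw1 i]
  refine no_ext I (fun i => (ε i : ℂ)) (fun i => 1 - inner ℂ (w i) a) (fun i => inner ℂ (w i) b)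
    (fun i _ => by exact_mod_cast (hε i).ne') (fun i _ => hin1 i a h1) τ M⁻¹
    (fun l => ∑' n, α n * (l - τ) ^ n) hdiff (ball τ M⁻¹ ∩ ball 0 1)
    (isOpen_ball.inter isOpen_ball) ?_ inter_subset_left ?_ ?_ lp hlpball j hjI ?_
  · refine ⟨((1 - M⁻¹ / 2 : ℝ) : ℂ) * τ, ?_, ?_⟩
    · rw [mem_ball, dist_eq_norm]
      have : ((1 - M⁻¹ / 2 : ℝ) : ℂ) * τ - τ = ((-(M⁻¹ / 2) : ℝ) : ℂ) * τ := by push_cast; ring
      rw [this, norm_mul, h4, mul_one, Complex.norm_real, norm_neg, Real.norm_of_nonneg (by positivity)]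
      linarith
    · rw [mem_ball_zero_iff, norm_mul, h4, mul_one, Complex.norm_real,
        Real.norm_of_nonneg (by linarith)]
      linarith
  · rintro l ⟨-, hl⟩ i -
    have hl1 : ‖l‖ ≤ 1 := (mem_ball_zero_iff.1 hl).le
    have := hin1 i (a + l • b) (disc_norm a b h5 l hl1)
    rw [inner_add_right, inner_smul_right] at this
    rwa [sub_sub]
  · rintro l ⟨hl1, hl2⟩
    have hl2' : ‖l‖ < 1 := mem_ball_zero_iff.1 hl2
    have h15 := h7 (l - τ) (by rw [← dist_eq_norm]; exact hl1) (by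
      rw [add_sub_cancel]; exact hl2')
    rw [add_sub_cancel] at h15
    rw [h15, hfc _ (mem_closedBall_zero_iff.2 (disc_norm a b h5 l hl2'.le))]
    refine Finset.sum_congr rfl fun i _ => ?_
    rw [inner_add_right, inner_smul_right, sub_sub]
  · simp only [hlp]
    field_simp
    ring

lemma taylor (h : ℂ → ℂ) (τ : ℂ) (R C : ℝ) (hR : 0 < R) (hd : DifferentiableOn ℂ h (closedBall τ R))
    (hC : ∀ z ∈ closedBall τ R, ‖h z‖ ≤ C) : ∃ α : ℕ → ℂ, (∀ n, ‖α n‖ ≤ C * R⁻¹ ^ n) ∧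
      ∀ y : ℂ, ‖y‖ < R → HasSum (fun n => α n * y ^ n) (h (τ + y)) := by
  lift R to NNReal using hR.le
  have hR' : 0 < R := by exact_mod_cast hR
  have hp := hd.hasFPowerSeriesOnBall hR'
  refine ⟨fun n => (cauchyPowerSeries h τ R).coeff n, fun n => ?_, fun y hy => ?_⟩
  · rw [← FormalMultilinearSeries.norm_apply_eq_norm_coef]
    refine (norm_cauchyPowerSeries_le h τ R n).trans ?_
    rw [abs_of_pos hR]
    gcongr
    have h1 : ∫ θ : ℝ in (0 : ℝ)..2 * Real.pi, ‖h (circleMap τ R θ)‖ ≤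
        ∫ θ : ℝ in (0 : ℝ)..2 * Real.pi, C := by
      refine intervalIntegral.integral_mono_on Real.two_pi_pos.le ?_ (by simp) fun θ _ => ?_
      · apply ContinuousOn.intervalIntegrable
        refine (hd.continuousOn.comp (continuous_circleMap _ _).continuousOn ?_).norm
        intro θ _
        exact circleMap_mem_closedBall _ hR.le _
      · exact hC _ (circleMap_mem_closedBall _ hR.le _)
    rw [intervalIntegral.integral_const, smul_eq_mul, sub_zero] at h1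
    calc (2 * Real.pi)⁻¹ * ∫ θ : ℝ in (0 : ℝ)..2 * Real.pi, ‖h (circleMap τ R θ)‖
        ≤ (2 * Real.pi)⁻¹ * (2 * Real.pi * C) := by gcongr
      _ = C := by field_simp
  · have h1 := hp.hasSum (y := y) (by
      rw [Metric.mem_eball, edist_eq_enorm_sub, sub_zero]
      rw [← ofReal_norm, ← ENNReal.ofReal_coe_nnreal]
      exact (ENNReal.ofReal_lt_ofReal_iff hR).2 hy)
    have h2 : (fun n => cauchyPowerSeries h τ R n fun _ => y) =
        fun n => (cauchyPowerSeries h τ R).coeff n * y ^ n := by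
      funext n
      rw [FormalMultilinearSeries.apply_eq_pow_smul_coeff, smul_eq_mul, mul_comm]
    rw [h2] at h1
    exact h1

/-- Main construction. -/
theorem exists_nb (E : Type*) [NormedAddCommGroup E] [InnerProductSpace ℂ E]
    [FiniteDimensional ℂ E] :
    ∃ f : E → ℂ, ContDiff ℝ ∞ f ∧ DifferentiableOn ℂ f (ball 0 1) ∧
      ∀ a b : E, b ≠ 0 → (∀ l : ℂ, ‖l‖ = 1 → ‖a + l • b‖ = 1) → ∀ τ : ℂ, ‖τ‖ = 1 →
        ¬ ∃ (c : ℂ) (r : ℝ) (h : ℂ → ℂ), τ ∈ ball c r ∧ DifferentiableOn ℂ h (ball c r) ∧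
          ∀ l ∈ ball c r ∩ ball 0 1, h l = f (a + l • b) := by
  obtain ⟨w, hw1, hw2⟩ := exists_seq (E := E)
  obtain ⟨ε, V, hε, hV, hb, hVf⟩ := exists_family w hw1
  have hfc := fc_continuous hV hb
  have hVd : ∀ j, DifferentiableOn ℂ (V j) (ball 0 1) := by
    intro j
    have h1 : DifferentiableOn ℂ (fun z : E => (ε j : ℂ) * ((1 - inner ℂ (w j) z) ^ (j + 1))⁻¹)
        (ball 0 1) := by
      intro z hz
      have h2 : (1 - inner ℂ (w j) z) ^ (j + 1) ≠ 0 := by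
        apply pow_ne_zero
        intro h0
        have h12 : inner ℂ (w j) z = (1 : ℂ) := (sub_eq_zero.1 h0).symm
        have h13 : ‖inner ℂ (w j) z‖ ≤ ‖w j‖ * ‖z‖ := norm_inner_le_norm _ _
        rw [h12, norm_one] at h13
        have h14 : ‖w j‖ * ‖z‖ ≤ ‖w j‖ * 1 := by
          gcongr
          exact (mem_ball_zero_iff.1 hz).le
        linarith [hw1 j]
      have h3 : DifferentiableAt ℂ (fun z : E => inner ℂ (w j) z) z :=
        (innerSL ℂ (w j)).differentiableAt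
      have h4 : DifferentiableAt ℂ (fun z : E => (1 - inner ℂ (w j) z) ^ (j + 1)) z :=
        (h3.const_sub 1).pow _
      exact ((h4.inv h2).const_mul _).differentiableWithinAt
    exact h1.congr fun z hz => hVf j z (ball_subset_closedBall hz)
  have hcl : ∀ k : ℕ, IsClosed (Prod.fst '' (bad V ((k : ℝ) + 1))) := fun k =>
    ((isCompact_bad hfc ((k : ℝ) + 1) (by linarith [k.cast_nonneg (α := ℝ)])).image
      continuous_fst).isClosed
  have hint : ∀ k : ℕ, interior (Prod.fst '' (bad V ((k : ℝ) + 1))) = ∅ := fun k =>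
    interior_empty hw1 hw2 hε hVf _ (by linarith [k.cast_nonneg (α := ℝ)])
  have hex : ∃ c : ℕ → Bool, ∀ k : ℕ, c ∉ Prod.fst '' (bad V ((k : ℝ) + 1)) := by
    by_contra hcon
    push Not at hcon
    obtain ⟨k, hk⟩ := nonempty_interior_of_iUnion_of_closed hcl (by
      ext c
      simp only [mem_iUnion, mem_univ, iff_true]
      exact hcon c)
    rw [hint k] at hk
    exact hk.ne_empty rfl
  obtain ⟨c, hc⟩ := hex
  refine ⟨fc V c, fc_contDiff hV hb c, fc_differentiableOn hV hb hVd c, ?_⟩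
  rintro a b hb0 hab τ hτ ⟨c₀, r, h, hτc, hh, hheq⟩
  obtain ⟨h1, h2⟩ := disc_facts a b hab
  -- choose a small closed disc around `τ`
  obtain ⟨ρ, hρ0, hρ⟩ := Metric.isOpen_iff.1 isOpen_ball τ hτc
  have hcomp : IsCompact (closedBall τ (ρ / 2)) := isCompact_closedBall _ _
  have hsub : closedBall τ (ρ / 2) ⊆ ball c₀ r :=
    (closedBall_subset_ball (by linarith)).trans hρ
  obtain ⟨C, hC⟩ := hcomp.exists_bound_of_continuousOn (hh.continuousOn.mono hsub)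
  obtain ⟨k, hk⟩ := exists_nat_ge (max (max C (2 / ρ)) ‖b‖⁻¹)
  set M : ℝ := (k : ℝ) + 1 with hMdef
  have hkC : C ≤ M := by
    have := (le_max_left _ _).trans ((le_max_left _ _).trans hk); linarith
  have hkρ : 2 / ρ ≤ M := by
    have := (le_max_right _ _).trans ((le_max_left _ _).trans hk); linarith
  have hkb : ‖b‖⁻¹ ≤ M := by
    have := (le_max_right _ _).trans hk; linarith
  have hM1 : 1 ≤ M := by have := k.cast_nonneg (α := ℝ); linarith
  have hM0 : 0 < M := by linarith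
  have hb0' : 0 < ‖b‖ := norm_pos_iff.2 hb0
  have hMρ : M⁻¹ ≤ ρ / 2 := by
    rw [inv_le_comm₀ hM0 (by positivity), inv_div]; exact hkρ
  have hMb : M⁻¹ ≤ ‖b‖ := by
    rw [inv_le_comm₀ hM0 hb0']; exact hkb
  have hMi : 0 < M⁻¹ := inv_pos.2 hM0
  -- Taylor coefficients
  have hdc : DifferentiableOn ℂ h (closedBall τ M⁻¹) :=
    hh.mono ((closedBall_subset_closedBall hMρ).trans hsub)
  have hCM : ∀ z ∈ closedBall τ M⁻¹, ‖h z‖ ≤ M := fun z hz =>
    (hC z (closedBall_subset_closedBall hMρ hz)).trans hkC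
  obtain ⟨α, hα1, hα2⟩ := taylor h τ M⁻¹ M hMi hdc hCM
  apply hc k
  refine ⟨(c, a, b, τ, α), ⟨⟨?_, ?_, hMb, hτ, hab, ?_⟩, ?_⟩, rfl⟩
  · change ‖a‖ ≤ 1
    nlinarith [norm_nonneg a, norm_nonneg b, sq_nonneg ‖b‖]
  · change ‖b‖ ≤ 1
    nlinarith [norm_nonneg a, norm_nonneg b, sq_nonneg ‖a‖]
  · intro n
    have := hα1 n
    rwa [inv_inv] at this
  · intro y hy1 hy2
    change ∑' n, α n * y ^ n = fc V c (a + (τ + y) • b)
    rw [(hα2 y hy1).tsum_eq]
    apply hheq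
    refine ⟨hsub ?_, mem_ball_zero_iff.2 hy2⟩
    rw [mem_closedBall, dist_eq_norm, add_sub_cancel_left]
    exact hy1.le.trans hMρ

end Pool.Agent.H764R2.NB
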